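import Pool.Agent.Helper41_AEC.TRC

/-!
# Squad AFX (MP_23d7af_lc): continuous transfinite chains
-/

open FirstOrder FirstOrder.Language Cardinal Set CategoryTheory CategoryTheory.Limits

universe u

namespace Pool.Agent.AEC

/-- **TRCC** (transfinite continuous chains; uses DLM, DLU).  TRC with the additional conclusion that
the member at a limit place is the union of the earlier ones. -/
def TrccStmt : Prop := ∀ (L : FirstOrder.Language.{u, u}) (κ : Cardinal.{u}) (K : AEC L κ)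
  (A0 : K.Mod) (Q : K.Mod → Prop) (R : ∀ A B : K.Mod, K.Hom A0 A → K.Hom A B → Prop)
  (J : Type u) [LinearOrder J] [WellFoundedLT J] [Nonempty J] (c : Cardinal.{u}),
  (∀ j : J, #(Set.Iio j) ≤ c) → K.ChainClosed Q c → Q A0 →
  (∀ (A : K.Mod) (e : K.Hom A0 A), Q A → ∃ (B : K.Mod) (f : K.Hom A B), Q B ∧ R A B e f) →
  ∃ (F : J → K.Mod) (m : ∀ i j : J, i ≤ j → K.Hom (F i) (F j)) (b : ∀ i, K.Hom A0 (F i)),
    (∀ i x, m i i le_rfl x = x) ∧
    (∀ i j k (hij : i ≤ j) (hjk : j ≤ k) x,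
      m j k hjk (m i j hij x) = m i k (hij.trans hjk) x) ∧
    (∀ i j h x, m i j h (b i x) = b j x) ∧ (∀ i, Q (F i)) ∧
    (∀ i j (h : i ⋖ j), R (F i) (F j) (b i) (m i j h.le)) ∧
    ∀ j, Order.IsSuccLimit j → ∀ y, ∃ (i : J) (h : i < j) (x : (F i).α), m i j h.le x = y

end Pool.Agent.AEC

namespace Pool.Agent.AEC.H40

open Pool.Agent.AEC.H41

theorem trcc (dlm : DlmStmt.{u}) (dlu : DluStmt.{u}) : TrccStmt.{u} := by
  intro L κ K A0 Q R J _ _ _ c hJ hcc hQ0 hstep
  classical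
  letI : SuccOrder J := SuccOrder.ofLinearWellFoundedLT J
  letI : OrderBot J := WellFoundedLT.toOrderBot J
  have hstep' : ∀ X : Und K A0, ∃ (Y : Und K A0) (f : X ⟶ Y), Good Q R f := by
    intro X
    by_cases hX : Q X.A
    · obtain ⟨B, f, hB, hR⟩ := hstep X.A X.e hX
      exact ⟨⟨B, f.comp X.e⟩, ⟨f, fun _ => rfl⟩, fun _ => ⟨hB, hR⟩⟩
    · exact ⟨X, 𝟙 X, fun h => absurd h hX⟩
  choose succ toSucc hsucc using hstep'
  let Φ : SmallObject.SuccStruct (Und K A0) := ⟨⟨A0, AEC.Hom.id A0⟩, succ, toSucc⟩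
  have hprop : ∀ {X Y : Und K A0} (f : X ⟶ Y), Φ.prop f → Good Q R f := by
    rintro X Y f ⟨⟩
    exact hsucc _
  haveI : HasIterationOfShape J (Und K A0) :=
    { hasColimitsOfShape_of_isSuccLimit := by
        intro j hj
        obtain ⟨i, hi⟩ := not_isMin_iff.1 hj.1
        haveI : Nonempty (Set.Iio j) := ⟨⟨i, hi⟩⟩
        exact hasColim dlm dlu
      hasColimitsOfShape := hasColim dlm dlu }
  let F : J ⥤ Und K A0 := Φ.iterationFunctor J
  have hbot : F.obj ⊥ = ⟨A0, AEC.Hom.id A0⟩ := (Φ.iter ⊥).obj_bot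
  have hQ : ∀ j, Q (F.obj j).A := by
    intro j
    induction j using SuccOrder.limitRecOn with
    | isMin j hj =>
      have h1 : j = ⊥ := hj.eq_bot
      subst h1
      rw [hbot]
      exact hQ0
    | succ j hj ih =>
      exact (hprop _ (Φ.prop_iterationFunctor_map_succ j hj) ih).1
    | isSuccLimit j hj ih =>
      obtain ⟨i, hi⟩ := not_isMin_iff.1 hj.1
      haveI : Nonempty (Set.Iio j) := ⟨⟨i, hi⟩⟩
      haveI : NoMaxOrder (Set.Iio j) := ⟨fun a => by
        obtain ⟨b, hb, hab⟩ := hj.lt_iff_exists_lt.1 a.2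
        exact ⟨⟨b, hb⟩, hab⟩⟩
      have hcol := F.isColimitOfIsWellOrderContinuous j hj
      refine hcc (Set.Iio j) (hJ j) (fun a => (F.obj a).A)
        (fun a b h => (F.map (homOfLE h)).f) (F.obj j).A (fun a => (F.map (homOfLE (le_of_lt a.2))).f)
        ?_ ?_ (fun a => ih a a.2)
      · intro a b h x
        have h1 : F.map (homOfLE h) ≫ F.map (homOfLE (le_of_lt b.2)) =
            F.map (homOfLE (le_of_lt a.2)) := by
          rw [← F.map_comp]
          rfl
        exact congrArg (fun f : F.obj a ⟶ F.obj j => f.f x) h1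
      · intro y
        exact jsurj dlm dlu _ _ hcol y
  refine ⟨fun j => (F.obj j).A, fun i j h => (F.map (homOfLE h)).f, fun i => (F.obj i).e,
    ?_, ?_, fun i j h x => (F.map (homOfLE h)).h x, hQ, ?_, ?_⟩
  · intro i x
    have h1 : F.map (homOfLE (le_refl i)) = 𝟙 (F.obj i) := F.map_id i
    exact congrArg (fun f : F.obj i ⟶ F.obj i => f.f x) h1
  · intro i j k hij hjk x
    have h1 : F.map (homOfLE hij) ≫ F.map (homOfLE hjk) = F.map (homOfLE (hij.trans hjk)) := by
      rw [← F.map_comp]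
      rfl
    exact congrArg (fun f : F.obj i ⟶ F.obj k => f.f x) h1
  · intro i j h
    have hi : ¬ IsMax i := fun hh => absurd h.lt (not_lt.2 (hh h.le))
    have h1 : Order.succ i = j := Order.succ_eq_of_covBy h
    subst h1
    exact (hprop _ (Φ.prop_iterationFunctor_map_succ i hi) (hQ i)).2
  · intro j hj y
    obtain ⟨i, hi⟩ := not_isMin_iff.1 hj.1
    haveI : Nonempty (Set.Iio j) := ⟨⟨i, hi⟩⟩
    have hcol := F.isColimitOfIsWellOrderContinuous j hj
    obtain ⟨a, x, hx⟩ := jsurj dlm dlu _ _ hcol y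
    exact ⟨a.1, a.2, x, hx⟩

end Pool.Agent.AEC.H40
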