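import Pool.Agent.Helper40_AFX.TRCC
import Pool.Agent.Helper91_AEC.S2G
import Pool.Agent.Helper69_AEC.Base

/-!
# Squad AFX (MP_23d7af_lc), row TWO: amalgamation up to the image of the base from two successive
categoricity cardinals
-/

open FirstOrder FirstOrder.Language Cardinal Set

universe u

namespace Pool.Agent.AEC

/-- **TWO** (uses TRCC, DLM).  Categoricity in `l` and in its successor: any family of at most `l`
extensions `e i : M → B i` in `K_l` has a common extension `Z` in which the images of `M` are the same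
subset.

*Proof.*  Every member of cardinality `l` has a proper extension of cardinality `l` (take it in the
member of cardinality `l⁺`), so we may assume that no `e i` is onto.  For every `i` build a
continuous chain of members of cardinality `l` of length `l⁺` whose steps are isomorphic to
`e i : M → B i`; its union has cardinality `l⁺`, so it is isomorphic to the member `G` of
cardinality `l⁺`.  Let `H i a ⊆ G` be the image of the `a`-th member of the `i`-th chain.  As `l⁺`
is regular there is a limit `δ` with `H i δ = H j δ` for all `i, j`. -/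
def TwoStmt : Prop := ∀ (L : FirstOrder.Language.{u, u}) (κ : Cardinal.{u}) (K : AEC L κ)
  (l : Cardinal.{u}), κ ≤ l → K.Cat l → K.Cat (Order.succ l) → ∀ M : K.Mod, #M.α = l →
  ∀ (ι : Type u) (B : ι → K.Mod) (e : ∀ i, K.Hom M (B i)), #ι ≤ l → (∀ i, #(B i).α = l) →
  ∃ (Z : K.Mod) (w : ∀ i, K.Hom (B i) Z), #Z.α = Order.succ l ∧
    ∀ i j, Set.range (fun x => w i (e i x)) = Set.range (fun x => w j (e j x))

end Pool.Agent.AEC

namespace Pool.Agent.AEC.H40

open Pool.Agent.AEC.AEC

/-- closure points of several chains -/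
theorem club (l : Cardinal.{u}) (hl : ℵ₀ ≤ l) {G ι : Type u} (hι : #ι ≤ l)
    (H : ι → (Order.succ l).ord.ToType → Set G)
    (hmono : ∀ i a b, a ≤ b → H i a ⊆ H i b) (hcard : ∀ i a, #(H i a) ≤ l)
    (hcov : ∀ i y, ∃ a, y ∈ H i a)
    (hlim : ∀ i a, Order.IsSuccLimit a → ∀ y ∈ H i a, ∃ b < a, y ∈ H i b) :
    ∃ δ, ∀ i i', H i δ = H i' δ := by
  have hc : ℵ₀ ≤ Order.succ l := hl.trans (Order.le_succ _)
  have hnm : NoMaxOrder (Order.succ l).ord.ToType := Cardinal.noMaxOrder hc
  have hne : Nonempty (Order.succ l).ord.ToType := by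
    rw [← Cardinal.mk_ne_zero_iff]
    simp
  have hg : ∀ a : (Order.succ l).ord.ToType, ∃ b, a < b ∧ ∀ i i', H i a ⊆ H i' b := by
    intro a
    let T : Type u := (Σ i : ι, H i a) × ι
    have hT : #T ≤ l := by
      have h1 : #(Σ i : ι, H i a) ≤ l := by
        rw [Cardinal.mk_sigma]
        refine (Cardinal.sum_le_sum _ (fun _ => l) fun i => hcard i a).trans ?_
        rw [Cardinal.sum_const, Cardinal.lift_id, Cardinal.lift_id]
        exact (mul_le_mul_left hι l).trans (Cardinal.mul_eq_self hl).le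
      have h2 : #T = #(Σ i : ι, H i a) * #ι := by
        simp only [T, Cardinal.mk_prod, Cardinal.lift_id]
      rw [h2]
      exact (mul_le_mul' h1 hι).trans (Cardinal.mul_eq_self hl).le
    choose f hf using fun t : T => hcov t.2 (t.1.2 : G)
    obtain ⟨b, hb⟩ := H91.bdd_of_le l hl hT f
    obtain ⟨c, hc⟩ := exists_gt (max a b)
    refine ⟨c, lt_of_le_of_lt (le_max_left a b) hc, ?_⟩
    intro i i' y hy
    have h3 := hf ⟨⟨i, ⟨y, hy⟩⟩, i'⟩
    exact hmono i' _ _ ((hb ⟨⟨i, ⟨y, hy⟩⟩, i'⟩).trans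
      (lt_of_le_of_lt (le_max_right a b) hc).le) h3
  choose g hg1 hg2 using hg
  let d : ℕ → (Order.succ l).ord.ToType := fun n => Nat.rec hne.some (fun _ a => g a) n
  have hd : ∀ n, d (n + 1) = g (d n) := fun n => rfl
  have hdl : ∀ n, d n < d (n + 1) := fun n => by
    rw [hd]
    exact hg1 _
  have hub : ∃ c, ∀ n, d n ≤ c := by
    have h1 : #(ULift.{u} ℕ) ≤ l := by
      rw [Cardinal.mk_uLift, Cardinal.mk_nat, Cardinal.lift_aleph0]
      exact hl
    obtain ⟨c, hc⟩ := H91.bdd_of_le l hl h1 (fun n : ULift.{u} ℕ => d n.down)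
    exact ⟨c, fun n => hc ⟨n⟩⟩
  let S : Set (Order.succ l).ord.ToType := {c | ∀ n, d n ≤ c}
  have hS : S.Nonempty := hub
  let δ := wellFounded_lt.min S hS
  have hδ : ∀ n, d n ≤ δ := wellFounded_lt.min_mem S hS
  have hδ' : ∀ n, d n < δ := fun n => (hdl n).trans_le (hδ (n + 1))
  have hδm : ∀ b, b < δ → ∃ n, b < d n := by
    intro b hb
    by_contra hcon
    push Not at hcon
    exact wellFounded_lt.not_lt_min S (x := b) hcon hb
  have hlimδ : Order.IsSuccLimit δ := by
    refine ⟨fun h => absurd (hδ' 0) (not_lt.2 (h (hδ' 0).le)), ?_⟩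
    intro b hb
    obtain ⟨n, hn⟩ := hδm b hb.lt
    exact hb.2 hn (hδ' n)
  have hsub : ∀ i i', H i δ ⊆ H i' δ := by
    intro i i' y hy
    obtain ⟨b, hb, hyb⟩ := hlim i δ hlimδ y hy
    obtain ⟨n, hn⟩ := hδm b hb
    have h1 : y ∈ H i (d n) := hmono i _ _ hn.le hyb
    have h2 : y ∈ H i' (g (d n)) := hg2 _ i i' h1
    rw [← hd] at h2
    exact hmono i' _ _ (hδ (n + 1)) h2
  exact ⟨δ, fun i i' => Set.Subset.antisymm (hsub i i') (hsub i' i)⟩

variable {L : FirstOrder.Language.{u, u}} {κ : Cardinal.{u}}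

/-- members of cardinality `l` have proper extensions of cardinality `l` -/
theorem proper (K : AEC L κ) (l : Cardinal.{u}) (hκ : κ ≤ l) (h1 : K.Cat l)
    (h2 : K.Cat (Order.succ l)) (B : K.Mod) (hB : #B.α = l) :
    ∃ (C : K.Mod) (c : K.Hom B C), #C.α = l ∧ ¬ Function.Surjective c := by
  have hinf : ℵ₀ ≤ l := K.aleph0_le.trans hκ
  obtain ⟨⟨N, hN⟩, -⟩ := h2
  obtain ⟨A, hA⟩ := (Cardinal.le_mk_iff_exists_set (c := l) (α := N.α)).1
    (by rw [hN]; exact Order.le_succ l)
  obtain ⟨S, hS1, hS2, hS3⟩ := K.ls N.prop A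
  have hSl : #S = l := by
    apply le_antisymm
    · exact hS3.trans (Cardinal.add_le_of_le hinf hA.le hκ)
    · rw [← hA]
      exact Cardinal.mk_le_mk_of_subset hS1
  have hx : ∃ x : N.α, x ∉ S := by
    by_contra hcon
    push Not at hcon
    have h3 : #N.α ≤ #S := Cardinal.mk_le_of_injective (f := fun x => (⟨x, hcon x⟩ : S))
      (fun x y h => congrArg Subtype.val h)
    rw [hN, hSl] at h3
    exact absurd (Order.lt_succ l) (not_lt.2 h3)
  obtain ⟨x, hx⟩ := hx
  obtain ⟨S', hS1', hS2', hS3'⟩ := K.ls N.prop (insert x (S : Set N.α))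
  obtain ⟨θ⟩ := h1.2 B (sub N S hS2) hB hSl
  obtain ⟨f, hf⟩ := Hom.exists_factor (subHom N S hS2) (subHom N S' hS2')
    (fun a : S => ⟨(⟨a.1, hS1' (Set.mem_insert_of_mem _ a.2)⟩ : S'), rfl⟩)
  refine ⟨sub N S' hS2', f.comp (Hom.ofEquiv θ), ?_, ?_⟩
  · apply le_antisymm
    · have h4 : #(insert x (S : Set N.α) : Set N.α) ≤ l := by
        refine (Cardinal.mk_insert_le).trans ?_
        exact Cardinal.add_le_of_le hinf hSl.le ((Cardinal.one_le_aleph0).trans hinf)
      exact hS3'.trans (Cardinal.add_le_of_le hinf h4 hκ)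
    · rw [← hB]
      exact Cardinal.mk_le_of_injective (f.comp (Hom.ofEquiv θ)).injective
  · intro hsurj
    obtain ⟨b, hb⟩ := hsurj ⟨x, hS1' (Set.mem_insert _ _)⟩
    have h5 := hf (θ b)
    have h6 : f (θ b) = ⟨x, hS1' (Set.mem_insert _ _)⟩ := hb
    rw [h6] at h5
    have h7 : ∀ z : S, subHom N S' hS2' ⟨x, hS1' (Set.mem_insert _ _)⟩ = (z : N.α) → False := by
      intro z hz
      have h8 : x = (z : N.α) := hz
      exact hx (h8 ▸ z.2)
    exact h7 (θ b) h5

/-- one chain -/
theorem one (trcc : TrccStmt.{u}) (dlm : DlmStmt.{u}) (K : AEC L κ) (l : Cardinal.{u})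
    (hκ : κ ≤ l) (h1 : K.Cat l) (h2 : K.Cat (Order.succ l)) (M C : K.Mod) (hM : #M.α = l)
    (hC : #C.α = l) (c : K.Hom M C) (hc : ¬ Function.Surjective c) (G : K.Mod)
    (hG : #G.α = Order.succ l) :
    ∃ H : (Order.succ l).ord.ToType → Set G.α, (∀ a b, a ≤ b → H a ⊆ H b) ∧
      (∀ a, #(H a) ≤ l) ∧ (∀ y, ∃ a, y ∈ H a) ∧
      (∀ a, Order.IsSuccLimit a → ∀ y ∈ H a, ∃ b < a, y ∈ H b) ∧
      ∀ a, ∃ w : K.Hom C G, Set.range (fun x => w (c x)) = H a := by
  have hinf : ℵ₀ ≤ l := K.aleph0_le.trans hκ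
  have hcc : ℵ₀ ≤ Order.succ l := hinf.trans (Order.le_succ _)
  have hnm : NoMaxOrder (Order.succ l).ord.ToType := Cardinal.noMaxOrder hcc
  have hJ : #(Order.succ l).ord.ToType = Order.succ l := by simp
  have hne : Nonempty (Order.succ l).ord.ToType := by
    rw [← Cardinal.mk_ne_zero_iff]
    simp
  have hIio : ∀ j : (Order.succ l).ord.ToType, #(Set.Iio j) ≤ l := fun j =>
    Order.lt_succ_iff.1 (Cardinal.mk_Iio_toType_ord_lt j)
  obtain ⟨F, m, b, hid, hcomp, hb, hQ, hR, hcont⟩ := trcc L κ K M (fun A => #A.α = l)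
    (fun A B _ f => ∃ (α : M.α ≃[L] A.α) (β : C.α ≃[L] B.α), ∀ x, f (α x) = β (c x))
    (Order.succ l).ord.ToType l hIio (Base.ccl L κ K l hinf).2 hM (by
      intro A e hA
      obtain ⟨α⟩ := h1.2 M A hM hA
      refine ⟨C, c.comp (Hom.ofEquiv α.symm), hC, α, FirstOrder.Language.Equiv.refl L C.α, ?_⟩
      intro x
      show c (α.symm (α x)) = c x
      rw [FirstOrder.Language.Equiv.symm_apply_apply])
  obtain ⟨U, s, hs, hcov⟩ := dlm L κ K (Order.succ l).ord.ToType F m hid hcomp
  have hcb : ∀ i : (Order.succ l).ord.ToType, ∃ j, i ⋖ j := by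
    intro i
    let _ : SuccOrder (Order.succ l).ord.ToType := SuccOrder.ofLinearWellFoundedLT _
    exact ⟨Order.succ i, Order.covBy_succ i⟩
  have hU : #U.α = Order.succ l := by
    apply le_antisymm
    · exact H76.card_union_le (Order.succ l) hcc hJ.le (fun a x => s a x) hcov
        (fun a => (hQ a).le.trans (Order.le_succ l))
    · choose j hj using hcb
      have hy : ∀ i : (Order.succ l).ord.ToType, ∃ y : (F (j i)).α,
          ∀ x, m i (j i) (hj i).le x ≠ y := by
        intro i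
        by_contra hcon
        push Not at hcon
        apply hc
        obtain ⟨α, β, hαβ⟩ := hR i (j i) (hj i)
        intro y
        obtain ⟨z, hz⟩ := hcon (β y)
        refine ⟨α.symm z, ?_⟩
        apply β.injective
        rw [← hαβ, FirstOrder.Language.Equiv.apply_symm_apply, hz]
      choose y hy using hy
      have hinj : Function.Injective (fun i => s (j i) (y i)) := by
        intro i i' h
        by_contra hne
        wlog hlt : i < i' generalizing i i' with H
        · exact H h.symm (Ne.symm hne) (lt_of_le_of_ne (not_lt.1 hlt) (Ne.symm hne))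
        have h1 : j i ≤ i' := by
          by_contra h2
          exact (hj i).2 hlt (not_le.1 h2)
        have h2 : s (j i) (y i) = s (j i') (m i' (j i') (hj i').le (m (j i) i' h1 (y i))) := by
          rw [hs, hs]
        have h3 : s (j i') (m i' (j i') (hj i').le (m (j i) i' h1 (y i))) = s (j i') (y i') := by
          rw [← h2]
          exact h
        exact hy i' _ ((s (j i')).injective h3)
      rw [← hJ]
      exact Cardinal.mk_le_of_injective hinj
  obtain ⟨φ⟩ := h2.2 U G hU hG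
  refine ⟨fun a => Set.range (fun x => φ (s a x)), ?_, ?_, ?_, ?_, ?_⟩
  · rintro a b' hab y ⟨x, rfl⟩
    exact ⟨m a b' hab x, by
      show φ (s b' (m a b' hab x)) = φ (s a x)
      rw [hs]⟩
  · intro a
    exact Cardinal.mk_range_le.trans (hQ a).le
  · intro y
    obtain ⟨i, x, hx⟩ := hcov (φ.symm y)
    exact ⟨i, x, by
      show φ (s i x) = y
      rw [hx, FirstOrder.Language.Equiv.apply_symm_apply]⟩
  · rintro a ha y ⟨x, rfl⟩
    obtain ⟨i, hi, z, hz⟩ := hcont a ha x
    refine ⟨i, hi, z, ?_⟩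
    show φ (s i z) = φ (s a x)
    rw [← hz, hs]
  · intro a
    obtain ⟨a', ha'⟩ := hcb a
    obtain ⟨α, β, hαβ⟩ := hR a a' ha'
    refine ⟨((Hom.ofEquiv φ).comp (s a')).comp (Hom.ofEquiv β), ?_⟩
    apply Set.Subset.antisymm
    · rintro y ⟨x, rfl⟩
      refine ⟨α x, ?_⟩
      show φ (s a (α x)) = φ (s a' (β (c x)))
      rw [← hαβ, hs]
    · rintro y ⟨x, rfl⟩
      refine ⟨α.symm x, ?_⟩
      show φ (s a' (β (c (α.symm x)))) = φ (s a x)
      rw [← hαβ, hs, FirstOrder.Language.Equiv.apply_symm_apply]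

/-- row TWO -/
theorem two (trcc : TrccStmt.{u}) (dlm : DlmStmt.{u}) : TwoStmt.{u} := by
  intro L κ K l hκ h1 h2 M hM ι B e hι hB
  have hinf : ℵ₀ ≤ l := K.aleph0_le.trans hκ
  obtain ⟨G, hG⟩ := h2.1
  choose C c hC hc using fun i => proper K l hκ h1 h2 (B i) (hB i)
  have hns : ∀ i, ¬ Function.Surjective ((c i).comp (e i)) := by
    intro i hs
    apply hc i
    intro y
    obtain ⟨x, hx⟩ := hs y
    exact ⟨e i x, hx⟩
  choose H hmono hcard hcov hlim hw using fun i =>
    one trcc dlm K l hκ h1 h2 M (C i) hM (hC i) ((c i).comp (e i)) (hns i) G hG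
  obtain ⟨δ, hδ⟩ := club l hinf hι H hmono hcard hcov hlim
  choose w hw' using fun i => hw i δ
  refine ⟨G, fun i => (w i).comp (c i), hG, fun i j => ?_⟩
  have h3 := (hw' i).trans ((hδ i j).trans (hw' j).symm)
  exact h3

theorem two_base : TwoStmt.{u} := two (trcc Base.dlm Base.dlu) Base.dlm

end Pool.Agent.AEC.H40
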